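import Pool.Agent.Helper87.RemNeg

/-!
# A model of ZF with an infinite discrete space that has a denumerable remainder, but of which
`ℕ(∞)` is not a remainder

The model is a symmetric extension, computed from a countable generic fragment of the class of
hereditarily symmetric names; it is a countable transitive set.
-/

set_option autoImplicit false

namespace Pool.Agent.Results.MP_ea9bab_gt.NotATheorem

open Pool.Agent.Helper87.Sym Pool.Agent.Helper87.ZFTop Pool.Agent.Helper87.Rem

/-- There are a countable transitive model `M` of ZF and an infinite discrete space `(D, S)` in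
`M` such that, in `M`, the space `(D, S)` has a denumerable remainder, but the one-point
compactification `ℕ(∞) = (NInf, W)` of the discrete space `ω` is not a remainder of `(D, S)`. -/
theorem result : ∃ M : Set ZFSet.{0}, M.Countable ∧ IsTransModelZF M ∧
    ∃ D ∈ M, ∃ S ∈ M, ∃ W ∈ M, IsDiscreteIn M D S ∧ IsTopNInfIn M W ∧ ¬ FiniteIn M D ∧
      HasDenumerableRemainderIn M D S ∧ ¬ IsRemainderIn M NInf W D S := by
  obtain ⟨g⟩ := exists_gen 𝔖 WC
  have hM := g.isModel
  obtain ⟨S, hS, hS'⟩ := hM.power _ (D_mem g)
  obtain ⟨W, hW, hW'⟩ := exists_topNInf hM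
  have hD : IsDiscreteIn g.M (g.val DN) S := hS'
  exact ⟨g.M, g.countable_M, hM, _, D_mem g, S, hS, W, hW, hD, hW', D_infinite g,
    has_denumerable g hD, not_remainder g hD hW'⟩

end Pool.Agent.Results.MP_ea9bab_gt.NotATheorem
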